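import Mathlib

/-!
F. B. Jones's set function `T` and indecomposability: if `T` is continuous for a continuum `S` and
`T(p)` has nonempty interior for some point `p`, then `S` is indecomposable. It is enough that the
map `x ↦ T({x})` is lower semicontinuous.

Proof. Write `y ≤ x` for `y ∈ T({x})`. Lower semicontinuity at `y` makes this relation transitive;
its graph is closed and the sets `T({x})` are connected. By compactness each `T({x})` contains an
element which is minimal (up to equivalence). The minimal elements form a closed set `E`, and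
`E ∩ T({p})` is connected: the points `x` of `T({p})` such that all minimal elements of `T({x})` lie
in one part of a partition of `E ∩ T({p})` would form an open and closed subset of `T({p})`. If `x`
is an interior point of `T({p})` and `p ∉ T({x})`, then for a small closed neighbourhood `N` of `x`
the union of `E ∩ T({p})` and the `T({y})`, `y ∈ N`, is a continuum which is a neighbourhood of `x`
and does not contain `p`, a contradiction. So `T({x}) = T({p})` for all interior points `x` of
`T({p})`; the interior is then open and closed, so it is `S`.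
-/

set_option autoImplicit false

open Set Topology TopologicalSpace

namespace Pool.Agent.Results.MP_3a3191_gt.Indecomposable

variable {S : Type*} [TopologicalSpace S]

/-- A subcontinuum: a compact connected (in particular nonempty) subset. -/
def IsSubcontinuum (W : Set S) : Prop := IsCompact W ∧ IsConnected W

/-- F. B. Jones's set function `T`. -/
def jonesT (A : Set S) : Set S :=
  univ \ {p | ∃ W : Set S, IsSubcontinuum W ∧ p ∈ interior W ∧ W ∩ A = ∅}

/-- The space `S` is not the union of two proper subcontinua. -/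
def IsIndecomposable (S : Type*) [TopologicalSpace S] : Prop :=
  ¬ ∃ A B : Set S, IsSubcontinuum A ∧ IsSubcontinuum B ∧ A ≠ univ ∧ B ≠ univ ∧ A ∪ B = univ

theorem mem_jonesT {A : Set S} {y : S} :
    y ∈ jonesT A ↔ ∀ W : Set S, IsSubcontinuum W → y ∈ interior W → (W ∩ A).Nonempty := by
  unfold jonesT
  simp only [mem_sdiff, mem_univ, true_and, mem_ofPred_eq, not_exists, not_and]
  refine forall_congr' fun W => forall_congr' fun _ => forall_congr' fun _ => ?_
  rw [← ne_eq, ← nonempty_iff_ne_empty]

theorem isClosed_jonesT (A : Set S) : IsClosed (jonesT A) := by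
  have : (jonesT A)ᶜ = ⋃ (W : Set S) (_ : IsSubcontinuum W) (_ : W ∩ A = ∅), interior W := by
    ext y
    simp only [mem_compl_iff, mem_iUnion, exists_prop]
    unfold jonesT
    simp only [mem_sdiff, mem_univ, true_and, mem_ofPred_eq, not_not]
    constructor
    · rintro ⟨W, h1, h2, h3⟩
      exact ⟨W, h1, h3, h2⟩
    · rintro ⟨W, h1, h3, h2⟩
      exact ⟨W, h1, h2, h3⟩
  rw [← isOpen_compl_iff, this]
  exact isOpen_iUnion fun W => isOpen_iUnion fun _ => isOpen_iUnion fun _ => isOpen_interior

/-- `T` on the hyperspace of the compact subsets of `S`; for a compact Hausdorff space these are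
the closed subsets. Mathlib's topology on `Compacts S` is the Vietoris topology. -/
def jonesTC [CompactSpace S] (K : Compacts S) : Compacts S :=
  ⟨jonesT (K : Set S), (isClosed_jonesT _).isCompact⟩

/-- `y ∈ T({x})`. -/
def le (y x : S) : Prop := y ∈ jonesT ({x} : Set S)

theorem le_iff {x y : S} : le y x ↔ ∀ W : Set S, IsSubcontinuum W → y ∈ interior W → x ∈ W := by
  unfold le
  rw [mem_jonesT]
  refine forall_congr' fun W => forall_congr' fun _ => forall_congr' fun _ => ?_
  constructor
  · rintro ⟨z, h1, h2⟩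
    rw [mem_singleton_iff] at h2
    rwa [← h2]
  · intro h
    exact ⟨x, h, rfl⟩

theorem le_self (x : S) : le x x := le_iff.2 fun _ _ h => interior_subset h

theorem isClosed_le [T2Space S] : IsClosed {q : S × S | le q.2 q.1} := by
  rw [← isOpen_compl_iff, isOpen_iff_mem_nhds]
  rintro ⟨x, y⟩ h
  simp only [mem_compl_iff, mem_ofPred_eq, le_iff, not_forall] at h
  obtain ⟨W, hW, hy, hx⟩ := h
  have h1 : Wᶜ ×ˢ interior W ∈ 𝓝 (x, y) :=
    prod_mem_nhds (hW.1.isClosed.isOpen_compl.mem_nhds hx) (isOpen_interior.mem_nhds hy)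
  refine Filter.mem_of_superset h1 ?_
  rintro ⟨x', y'⟩ ⟨h2, h3⟩
  simp only [mem_compl_iff, mem_ofPred_eq, le_iff, not_forall]
  exact ⟨W, hW, h3, h2⟩

section

variable [CompactSpace S] [T2Space S] [ConnectedSpace S]

/-- Boundary bumping: the component in `Uᶜ` of a point outside the open set `U ≠ ∅` meets the
frontier of `U`. -/
theorem bumping {U : Set S} (hU : IsOpen U) {p : S} (hp : p ∈ U) {h : S} (hh : h ∈ Uᶜ) :
    (connectedComponentIn Uᶜ h ∩ frontier U).Nonempty := by
  by_contra hcon
  rw [not_nonempty_iff_eq_empty] at hcon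
  have hK : IsClosed Uᶜ := hU.isClosed_compl
  have : CompactSpace (Uᶜ : Set S) := isCompact_iff_compactSpace.1 hK.isCompact
  let h' : (Uᶜ : Set S) := ⟨h, hh⟩
  let F : Set (Uᶜ : Set S) := Subtype.val ⁻¹' frontier U
  have hF : IsClosed F := isClosed_frontier.preimage continuous_subtype_val
  have hdisj : connectedComponent h' ∩ F = ∅ := by
    rw [eq_empty_iff_forall_notMem]
    rintro z ⟨hz1, hz2⟩
    have : (z : S) ∈ connectedComponentIn Uᶜ h ∩ frontier U := by
      refine ⟨?_, hz2⟩
      rw [connectedComponentIn_eq_image hh]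
      exact ⟨z, hz1, rfl⟩
    rw [hcon] at this
    exact this
  rw [connectedComponent_eq_iInter_isClopen] at hdisj
  have hne0 : Nonempty { s : Set (Uᶜ : Set S) // IsClopen s ∧ h' ∈ s } :=
    ⟨⟨univ, isClopen_univ, trivial⟩⟩
  obtain ⟨⟨Q, hQc, hhQ⟩, hQF⟩ : ∃ Q : { s : Set (Uᶜ : Set S) // IsClopen s ∧ h' ∈ s }, (Q : Set _) ∩ F = ∅ := by
    by_contra hne
    push Not at hne
    have h1 := IsCompact.nonempty_iInter_of_directed_nonempty_isCompact_isClosed
      (fun Q : { s : Set (Uᶜ : Set S) // IsClopen s ∧ h' ∈ s } => (Q : Set _) ∩ F)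
      (fun Q R => ⟨⟨Q.1 ∩ R.1, Q.2.1.inter R.2.1, Q.2.2, R.2.2⟩,
        inter_subset_inter_left _ inter_subset_left, inter_subset_inter_left _ inter_subset_right⟩)
      hne
      (fun Q => (Q.2.1.1.inter hF).isCompact) (fun Q => Q.2.1.1.inter hF)
    rw [← iInter_inter] at h1
    rw [hdisj] at h1
    exact not_nonempty_empty h1
  change Q ∩ F = ∅ at hQF
  have hQ' : IsClosed (Subtype.val '' Q : Set S) := hK.isClosedMap_subtype_val _ hQc.1
  have hQo : IsOpen (Subtype.val '' Q : Set S) := by
    obtain ⟨O, hO, hOQ⟩ := isOpen_induced_iff.1 hQc.2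
    have : (Subtype.val '' Q : Set S) = O ∩ (closure U)ᶜ := by
      ext z
      constructor
      · rintro ⟨w, hw, rfl⟩
        refine ⟨?_, ?_⟩
        · rw [← hOQ] at hw; exact hw
        · intro hcl
          have : w ∈ Q ∩ F := ⟨hw, by
            change (w : S) ∈ frontier U
            rw [hU.frontier_eq]
            exact ⟨hcl, w.2⟩⟩
          rw [hQF] at this
          exact this
      · rintro ⟨h1, h2⟩
        have hz : z ∈ Uᶜ := fun h => h2 (subset_closure h)
        refine ⟨⟨z, hz⟩, ?_, rfl⟩
        rw [← hOQ]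
        exact h1
    rw [this]
    exact hO.inter isClosed_closure.isOpen_compl
  have huniv := IsClopen.eq_univ (s := (Subtype.val '' Q : Set S)) ⟨hQ', hQo⟩ ⟨h, ⟨h', hhQ, rfl⟩⟩
  have : p ∈ (Subtype.val '' Q : Set S) := by rw [huniv]; trivial
  obtain ⟨w, -, hw⟩ := this
  exact w.2 (by rw [hw]; exact hp)

omit [CompactSpace S] [T2Space S] [ConnectedSpace S] in
theorem isClosed_component {H : Set S} (hH : IsClosed H) (z : S) :
    IsClosed (connectedComponentIn H z) := by
  by_cases hz : z ∈ H
  · have h1 : closure (connectedComponentIn H z) ⊆ connectedComponentIn H z := by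
      refine IsPreconnected.subset_connectedComponentIn isPreconnected_connectedComponentIn.closure
        (subset_closure (mem_connectedComponentIn hz)) ?_
      exact closure_minimal (connectedComponentIn_subset _ _) hH
    exact isClosed_of_closure_subset h1
  · rw [connectedComponentIn_eq_empty hz]
    exact isClosed_empty

/-- The sets `T({p})` are connected. -/
theorem isPreconnected_T (p : S) : IsPreconnected (jonesT ({p} : Set S)) := by
  rw [isPreconnected_iff_subset_of_disjoint_closed]
  -- it is enough to treat the case where `p` lies in the first set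
  have key : ∀ A B : Set S, IsClosed A → IsClosed B → jonesT ({p} : Set S) ⊆ A ∪ B →
      jonesT ({p} : Set S) ∩ (A ∩ B) = ∅ → p ∈ A → jonesT ({p} : Set S) ⊆ A := by
    intro A B hA hB hsub hdis hpA
    by_contra hcon
    obtain ⟨b, hbT, hbA⟩ := not_subset.1 hcon
    have hT : IsClosed (jonesT ({p} : Set S)) := isClosed_jonesT _
    have hd : Disjoint (jonesT ({p} : Set S) ∩ A) (jonesT ({p} : Set S) ∩ B) := by
      rw [disjoint_iff_inter_eq_empty, ← hdis]
      ext z
      simp only [mem_inter_iff]
      tauto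
    obtain ⟨U, V, hU, hV, hAU, hBV, hUV⟩ := normal_separation (hT.inter hA) (hT.inter hB) hd
    have hpU : p ∈ U := hAU ⟨le_self p, hpA⟩
    have hbB : b ∈ B := (hsub hbT).resolve_left hbA
    have hbV : b ∈ V := hBV ⟨hbT, hbB⟩
    have hVU : V ⊆ Uᶜ := fun z hz hzU => disjoint_left.1 hUV hzU hz
    have hbint : b ∈ interior Uᶜ := mem_interior.2 ⟨V, hVU, hV, hbV⟩
    have hW : ∀ z ∈ frontier U, ∃ W : Set S, IsSubcontinuum W ∧ z ∈ interior W ∧ p ∉ W := by
      intro z hz
      rw [hU.frontier_eq] at hz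
      have hzT : ¬ le z p := by
        intro h
        rcases hsub h with h1 | h1
        · exact hz.2 (hAU ⟨h, h1⟩)
        · obtain ⟨w, hw1, hw2⟩ := mem_closure_iff.1 hz.1 V hV (hBV ⟨h, h1⟩)
          exact disjoint_left.1 hUV hw2 hw1
      rw [le_iff] at hzT
      push Not at hzT
      exact hzT
    choose! W hW1 hW2 hW3 using hW
    obtain ⟨t, htF, hcov⟩ := (isClosed_frontier (s := U)).isCompact.elim_nhds_subcover
      (fun z => interior (W z)) (fun z hz => isOpen_interior.mem_nhds (hW2 z hz))
    set H : Set S := Uᶜ ∪ ⋃ z ∈ t, W z with hHdef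
    have hH : IsClosed H := by
      refine hU.isClosed_compl.union ?_
      exact t.finite_toSet.isClosed_biUnion fun z hz => (hW1 z (htF z hz)).1.isClosed
    have hWH : ∀ z ∈ t, W z ⊆ H := fun z hz w hw => Or.inr (mem_biUnion hz hw)
    have hpH : p ∉ H := by
      rintro (h | h)
      · exact h hpU
      · obtain ⟨z, hz, hpz⟩ := mem_iUnion₂.1 h
        exact hW3 z (htF z hz) hpz
    have hzW : ∀ z ∈ t, z ∈ W z := fun z hz => interior_subset (hW2 z (htF z hz))
    have claim : ∀ h ∈ H, ∃ z ∈ t, h ∈ connectedComponentIn H z := by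
      rintro h (hh | hh)
      · obtain ⟨c, hc1, hc2⟩ := bumping hU hpU hh
        obtain ⟨z, hz, hcz⟩ := mem_iUnion₂.1 (hcov hc2)
        refine ⟨z, hz, ?_⟩
        have hpre : IsPreconnected (connectedComponentIn Uᶜ h ∪ W z) :=
          IsPreconnected.union c hc1 (interior_subset hcz) isPreconnected_connectedComponentIn
            (hW1 z (htF z hz)).2.isPreconnected
        refine hpre.subset_connectedComponentIn (Or.inr (hzW z hz)) ?_
          (Or.inl (mem_connectedComponentIn hh))
        exact union_subset ((connectedComponentIn_subset _ _).trans subset_union_left) (hWH z hz)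
      · obtain ⟨z, hz, hhz⟩ := mem_iUnion₂.1 hh
        exact ⟨z, hz, (hW1 z (htF z hz)).2.isPreconnected.subset_connectedComponentIn
          (hzW z hz) (hWH z hz) hhz⟩
    have hbH : b ∈ H := Or.inl (interior_subset hbint)
    have hZ : IsClosed (⋃ z ∈ {z | z ∈ t ∧ b ∉ connectedComponentIn H z},
        connectedComponentIn H z) := by
      refine (t.finite_toSet.subset fun z hz => hz.1).isClosed_biUnion fun z _ => ?_
      exact isClosed_component hH z
    set Z : Set S := ⋃ z ∈ {z | z ∈ t ∧ b ∉ connectedComponentIn H z},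
        connectedComponentIn H z with hZdef
    have hbZ : b ∉ Z := by
      intro h
      obtain ⟨z, hz, hbz⟩ := mem_iUnion₂.1 h
      exact hz.2 hbz
    have hsubC : interior Uᶜ ∩ Zᶜ ⊆ connectedComponentIn H b := by
      rintro h ⟨h1, h2⟩
      obtain ⟨z, hz, hhz⟩ := claim h (Or.inl (interior_subset h1))
      by_cases hbz : b ∈ connectedComponentIn H z
      · rw [← connectedComponentIn_eq hbz]
        exact hhz
      · exact absurd (mem_biUnion (show z ∈ {z | z ∈ t ∧ b ∉ connectedComponentIn H z} from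
          ⟨hz, hbz⟩) hhz) h2
    have hbC : b ∈ interior (connectedComponentIn H b) :=
      mem_interior.2 ⟨_, hsubC, isOpen_interior.inter hZ.isOpen_compl, hbint, hbZ⟩
    have hC : IsSubcontinuum (connectedComponentIn H b) :=
      ⟨(isClosed_component hH b).isCompact, ⟨b, interior_subset hbC⟩,
        isPreconnected_connectedComponentIn⟩
    exact hpH (connectedComponentIn_subset _ _ (le_iff.1 hbT _ hC hbC))
  intro u v hu hv huv hdis
  rcases huv (le_self p) with h | h
  · exact Or.inl (key u v hu hv huv hdis h)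
  · refine Or.inr (key v u hv hu (by rwa [union_comm]) (by rwa [inter_comm v u]) h)

/-- `T({p})` is a subcontinuum. -/
theorem isSubcontinuum_T (p : S) : IsSubcontinuum (jonesT ({p} : Set S)) :=
  ⟨(isClosed_jonesT _).isCompact, ⟨p, le_self p⟩, isPreconnected_T p⟩

omit [ConnectedSpace S] in
theorem isClosed_down {K : Set S} (hK : IsClosed K) : IsClosed {z : S | ∃ y ∈ K, le z y} := by
  have h1 : IsCompact ({q : S × S | le q.2 q.1} ∩ (Prod.fst ⁻¹' K)) :=
    (isClosed_le.inter (hK.preimage continuous_fst)).isCompact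
  have h2 := (h1.image continuous_snd).isClosed
  convert h2 using 1
  ext z
  constructor
  · rintro ⟨y, hy, hz⟩
    exact ⟨(y, z), ⟨hz, hy⟩, rfl⟩
  · rintro ⟨⟨y, z'⟩, ⟨h3, h4⟩, rfl⟩
    exact ⟨y, h4, h3⟩

omit [ConnectedSpace S] in
theorem isClosed_up {K : Set S} (hK : IsClosed K) : IsClosed {x : S | ∃ e ∈ K, le e x} := by
  have h1 : IsCompact ({q : S × S | le q.2 q.1} ∩ (Prod.snd ⁻¹' K)) :=
    (isClosed_le.inter (hK.preimage continuous_snd)).isCompact
  have h2 := (h1.image continuous_fst).isClosed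
  convert h2 using 1
  ext z
  constructor
  · rintro ⟨y, hy, hz⟩
    exact ⟨(z, y), ⟨hz, hy⟩, rfl⟩
  · rintro ⟨⟨z', y⟩, ⟨h3, h4⟩, rfl⟩
    exact ⟨y, h4, h3⟩

/-- The map `x ↦ T({x})` is lower semicontinuous. -/
def LSC (S : Type*) [TopologicalSpace S] : Prop :=
  ∀ G : Set S, IsOpen G → IsOpen {x : S | (jonesT ({x} : Set S) ∩ G).Nonempty}

omit [CompactSpace S] [T2Space S] [ConnectedSpace S] in
theorem le_trans' (hL : LSC S) {x y z : S} (hzy : le z y) (hyx : le y x) : le z x := by
  rw [le_iff]
  intro W hW hz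
  have hO : IsOpen {x : S | (jonesT ({x} : Set S) ∩ interior W).Nonempty} := hL _ isOpen_interior
  have hsub : {x : S | (jonesT ({x} : Set S) ∩ interior W).Nonempty} ⊆ W := by
    rintro y' ⟨z', h1, h2⟩
    exact le_iff.1 h1 W hW h2
  have hy : y ∈ interior W := interior_maximal hsub hO ⟨z, hzy, hz⟩
  exact le_iff.1 hyx W hW hy

/-- The minimal elements. -/
def E (S : Type*) [TopologicalSpace S] : Set S := {z | ∀ w, le w z → le z w}

theorem exists_min (hL : LSC S) (x : S) : ∃ e ∈ E S, le e x := by
  let C : Set (Set S) := {K | ∃ y, le y x ∧ K = jonesT ({y} : Set S)}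
  obtain ⟨m, hm⟩ := zorn_superset C (by
    intro c hc hchain
    rcases c.eq_empty_or_nonempty with rfl | hne
    · exact ⟨jonesT ({x} : Set S), ⟨x, le_self x, rfl⟩, fun s hs => absurd hs (notMem_empty s)⟩
    · have : Nonempty c := hne.to_subtype
      obtain ⟨z, hz⟩ := IsCompact.nonempty_sInter_of_directed_nonempty_isCompact_isClosed
        (S := c) (fun a ha b hb => by
          rcases hchain.total ha hb with h | h
          · exact ⟨a, ha, subset_rfl, h⟩
          · exact ⟨b, hb, h, subset_rfl⟩)
        (fun U hU => by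
          obtain ⟨y, -, rfl⟩ := hc hU
          exact ⟨y, le_self y⟩)
        (fun U hU => by
          obtain ⟨y, -, rfl⟩ := hc hU
          exact (isClosed_jonesT _).isCompact)
        (fun U hU => by
          obtain ⟨y, -, rfl⟩ := hc hU
          exact isClosed_jonesT _)
      refine ⟨jonesT ({z} : Set S), ⟨z, ?_, rfl⟩, fun s hs => ?_⟩
      · obtain ⟨s, hs⟩ := hne
        obtain ⟨y, hy, rfl⟩ := hc hs
        exact le_trans' hL (hz _ hs) hy
      · obtain ⟨y, hy, rfl⟩ := hc hs
        intro w hw
        exact le_trans' hL hw (hz _ hs))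
  obtain ⟨e, he, rfl⟩ := hm.prop
  refine ⟨e, fun w hw => ?_, he⟩
  have h1 : jonesT ({w} : Set S) ∈ C := ⟨w, le_trans' hL hw he, rfl⟩
  have h2 : jonesT ({w} : Set S) ⊆ jonesT ({e} : Set S) := fun u hu => le_trans' hL hu hw
  exact hm.le_of_le h1 h2 (le_self e)

omit [CompactSpace S] [ConnectedSpace S] in
theorem isClosed_E (hL : LSC S) : IsClosed (E S) := by
  rw [← isOpen_compl_iff, isOpen_iff_mem_nhds]
  intro z hz
  simp only [E, mem_compl_iff, mem_ofPred_eq, not_forall] at hz
  obtain ⟨w, hwz, hzw⟩ := hz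
  have h1 : {q : S × S | le q.2 q.1}ᶜ ∈ 𝓝 (w, z) := isClosed_le.isOpen_compl.mem_nhds hzw
  obtain ⟨Wn, hWn, Zn, hZn, hsub⟩ := mem_nhds_prod_iff.1 h1
  have h2 : {x : S | (jonesT ({x} : Set S) ∩ interior Wn).Nonempty} ∈ 𝓝 z :=
    (hL _ isOpen_interior).mem_nhds ⟨w, hwz, mem_interior_iff_mem_nhds.2 hWn⟩
  refine Filter.mem_of_superset (Filter.inter_mem h2 hZn) ?_
  rintro z' ⟨⟨w', h3, h4⟩, h5⟩ hE
  exact hsub (mk_mem_prod (interior_subset h4) h5) (hE w' h3)

theorem E_down (hL : LSC S) {e w : S} (he : e ∈ E S) (hw : le w e) : w ∈ E S :=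
  fun _ hu => le_trans' hL hw (he _ (le_trans' hL hu hw))

/-- The minimal elements of `T({p})` form a connected set. -/
theorem isPreconnected_EP (hL : LSC S) (p : S) :
    IsPreconnected (E S ∩ jonesT ({p} : Set S)) := by
  rw [isPreconnected_iff_subset_of_disjoint_closed]
  intro u v hu hv huv hdis
  by_contra hcon
  push Not at hcon
  obtain ⟨e2, he2, he2u⟩ := not_subset.1 hcon.1
  obtain ⟨e1, he1, he1v⟩ := not_subset.1 hcon.2
  set P := jonesT ({p} : Set S) with hP
  have hEP : IsClosed (E S ∩ P) := (isClosed_E hL).inter (isClosed_jonesT _)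
  set E1 := (E S ∩ P) ∩ u with hE1
  set E2 := (E S ∩ P) ∩ v with hE2
  have hD1 : IsClosed {x : S | ∃ e ∈ E1, le e x} := isClosed_up (hEP.inter hu)
  have hD2 : IsClosed {x : S | ∃ e ∈ E2, le e x} := isClosed_up (hEP.inter hv)
  set D1 := {x : S | ∃ e ∈ E1, le e x} with hD1def
  set D2 := {x : S | ∃ e ∈ E2, le e x} with hD2def
  have hnot : ∀ e, e ∈ E S ∩ P → e ∈ u → e ∈ v → False := fun e h1 h2 h3 => by
    have : e ∈ (E S ∩ P) ∩ (u ∩ v) := ⟨h1, h2, h3⟩
    rw [hdis] at this
    exact this
  -- the sets `T({e})`, `e` minimal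
  have hTe : ∀ e ∈ E S ∩ P, jonesT ({e} : Set S) ⊆ E S ∩ P := fun e he w hw =>
    ⟨E_down hL he.1 hw, le_trans' hL hw he.2⟩
  have hTuv : ∀ e ∈ E S ∩ P, jonesT ({e} : Set S) ⊆ u ∨ jonesT ({e} : Set S) ⊆ v := by
    intro e he
    refine isPreconnected_iff_subset_of_disjoint_closed.1 (isPreconnected_T e) u v hu hv
      ((hTe e he).trans huv) ?_
    rw [eq_empty_iff_forall_notMem]
    rintro w ⟨h1, h2, h3⟩
    exact hnot w (hTe e he h1) h2 h3
  have hclaim : P ∩ (closure (P \ D2) ∩ D2) = ∅ := by
    rw [eq_empty_iff_forall_notMem]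
    rintro x ⟨hxP, hxc, e, he, hex⟩
    have hev : jonesT ({e} : Set S) ⊆ v := by
      rcases hTuv e he.1 with h | h
      · exact absurd (hnot e he.1 (h (le_self e)) he.2) id
      · exact h
    have heD1 : e ∈ D1ᶜ := by
      rintro ⟨e', he', hle⟩
      exact hnot e' he'.1 he'.2 (hev hle)
    have hO := hL D1ᶜ hD1.isOpen_compl
    obtain ⟨x', ⟨y, hy1, hy2⟩, hx'P, hx'D⟩ := mem_closure_iff.1 hxc _ hO ⟨e, hex, heD1⟩
    obtain ⟨e', he', he'y⟩ := exists_min hL y
    have h1 : le e' x' := le_trans' hL he'y hy1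
    have h2 : e' ∈ E S ∩ P := ⟨he', le_trans' hL h1 hx'P⟩
    rcases huv h2 with h | h
    · exact hy2 ⟨e', ⟨h2, h⟩, he'y⟩
    · exact hx'D ⟨e', ⟨h2, h⟩, h1⟩
  rcases isPreconnected_iff_subset_of_disjoint_closed.1 (isPreconnected_T p) (closure (P \ D2)) D2
    isClosed_closure hD2 (fun x hx => by
      by_cases h : x ∈ D2
      · exact Or.inr h
      · exact Or.inl (subset_closure ⟨hx, h⟩)) hclaim with h | h
  · have h1 : p ∈ P ∩ (closure (P \ D2) ∩ D2) :=
      ⟨le_self p, h (le_self p), e2, ⟨he2, (huv he2).resolve_left he2u⟩, he2.2⟩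
    rw [hclaim] at h1
    exact h1
  · obtain ⟨e, he, hle⟩ := h he1.2
    rcases hTuv e1 he1 with h1 | h1
    · exact hnot e he.1 (h1 hle) he.2
    · exact he1v (h1 (le_self e1))

/-- `T({x}) ∋ p` for all interior points `x` of `T({p})`. -/
theorem star (hL : LSC S) (p : S) {x : S} (hx : x ∈ interior (jonesT ({p} : Set S))) : le p x := by
  by_contra hpx
  have hO : IsOpen {y : S | ¬ le p y} := by
    have h1 : IsClosed {y : S | le p y} :=
      isClosed_le.preimage (show Continuous fun y : S => (y, p) by fun_prop)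
    exact h1.isOpen_compl
  have hN0 : {y : S | ¬ le p y} ∩ interior (jonesT ({p} : Set S)) ∈ 𝓝 x :=
    (hO.inter isOpen_interior).mem_nhds ⟨hpx, hx⟩
  obtain ⟨N, hN, hNc, hNs⟩ := exists_mem_nhds_isClosed_subset hN0
  set P := jonesT ({p} : Set S) with hP
  set L : Set S := (E S ∩ P) ∪ {z | ∃ y ∈ N, le z y} with hLdef
  have hLc : IsClosed L := ((isClosed_E hL).inter (isClosed_jonesT _)).union (isClosed_down hNc)
  have hmeet : ∀ y ∈ N, ∃ e, e ∈ E S ∩ P ∧ le e y := by
    intro y hy
    obtain ⟨e, he, hey⟩ := exists_min hL y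
    exact ⟨e, ⟨he, le_trans' hL hey (interior_subset (hNs hy).2)⟩, hey⟩
  obtain ⟨e0, he0, -⟩ := hmeet x (mem_of_mem_nhds hN)
  have hLpre : IsPreconnected L := by
    refine isPreconnected_of_forall e0 fun z hz => ?_
    rcases hz with hz | ⟨y, hy, hzy⟩
    · exact ⟨E S ∩ P, subset_union_left, he0, hz, isPreconnected_EP hL p⟩
    · obtain ⟨e, he, hey⟩ := hmeet y hy
      refine ⟨(E S ∩ P) ∪ jonesT ({y} : Set S), ?_, Or.inl he0, Or.inr hzy, ?_⟩
      · exact union_subset_union_right _ fun w hw => ⟨y, hy, hw⟩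
      · exact IsPreconnected.union e he hey (isPreconnected_EP hL p) (isPreconnected_T y)
  have hNL : N ⊆ L := fun y hy => Or.inr ⟨y, hy, le_self y⟩
  have hxL : x ∈ interior L := mem_interior_iff_mem_nhds.2 (Filter.mem_of_superset hN hNL)
  have hxp : le x p := interior_subset hx
  rcases le_iff.1 hxp L ⟨hLc.isCompact, ⟨x, interior_subset hxL⟩, hLpre⟩ hxL with h | ⟨y, hy, h⟩
  · exact hpx (h.1 x hxp)
  · exact (hNs hy).1 h

/-- `T({x}) = S` for all `x`. -/
theorem T_eq_univ (hL : LSC S) (p : S) (hp : (interior (jonesT ({p} : Set S))).Nonempty) (x : S) :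
    jonesT ({x} : Set S) = univ := by
  set P := jonesT ({p} : Set S) with hP
  have hPu : P = univ := by
    by_contra hne
    obtain ⟨u0, hu0⟩ := hp
    have hcl : ∃ b ∈ closure (interior P), b ∉ interior P := by
      by_contra hcon
      push Not at hcon
      have h1 : IsClopen (interior P) := ⟨isClosed_of_closure_subset hcon, isOpen_interior⟩
      have h2 := h1.eq_univ ⟨u0, hu0⟩
      exact hne (eq_univ_of_univ_subset (h2 ▸ interior_subset))
    obtain ⟨b, hb1, hb2⟩ := hcl
    have h1 : IsClosed {y : S | le u0 y} :=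
      isClosed_le.preimage (show Continuous fun y : S => (y, u0) by fun_prop)
    have h2 : interior P ⊆ {y : S | le u0 y} := fun y hy =>
      le_trans' hL (interior_subset hu0 : le u0 p) (star hL p hy)
    have h3 : le u0 b := closure_minimal h2 h1 hb1
    have hO := hL (interior P) isOpen_interior
    have hsub : {y : S | (jonesT ({y} : Set S) ∩ interior P).Nonempty} ⊆ P := by
      rintro b' ⟨u', h4, h5⟩
      exact le_iff.1 h4 P (isSubcontinuum_T p) h5
    exact hb2 (interior_maximal hsub hO ⟨u0, h3, hu0⟩)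
  refine eq_univ_of_forall fun y => ?_
  have h1 : le y p := by
    change y ∈ P
    rw [hPu]; trivial
  have h2 : le p x := star hL p (by rw [← hP, hPu, interior_univ]; trivial)
  exact le_trans' hL h1 h2

theorem indecomposable_of_T (h : ∀ x : S, jonesT ({x} : Set S) = univ) : IsIndecomposable S := by
  rintro ⟨A, B, hA, hB, hA', hB', hAB⟩
  obtain ⟨x, hx⟩ := (ne_univ_iff_exists_notMem A).1 hA'
  obtain ⟨y, hy⟩ := (ne_univ_iff_exists_notMem B).1 hB'
  have hsub : Bᶜ ⊆ A := by
    intro z hz
    have h1 : z ∈ A ∪ B := by rw [hAB]; trivial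
    exact h1.resolve_right hz
  have hyA : y ∈ interior A := interior_maximal hsub hB.1.isClosed.isOpen_compl hy
  have hyx : le y x := by
    change y ∈ jonesT ({x} : Set S)
    rw [h x]
    trivial
  exact hx (le_iff.1 hyx A hA hyA)

theorem lsc_of_continuous (hT : Continuous (jonesTC : Compacts S → Compacts S)) : LSC S := by
  intro G hG
  exact (Compacts.isOpen_inter_nonempty_of_isOpen hG).preimage
    (hT.comp Compacts.continuous_singleton)

end

/-- Let `S` be a continuum (a compact connected Hausdorff space).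

If `T` is continuous for `S` and `T({p})` has nonempty interior for some point `p`, then `S` is
indecomposable. It is enough that `x ↦ T({x})` is lower semicontinuous, and then `T({x}) = S` for
all points `x`. -/
theorem result (S : Type*) [TopologicalSpace S] [CompactSpace S] [T2Space S] [ConnectedSpace S]
    (p : S) (hp : (interior (jonesT ({p} : Set S))).Nonempty) :
    (Continuous (jonesTC : Compacts S → Compacts S) → IsIndecomposable S) ∧
      ((∀ G : Set S, IsOpen G → IsOpen {x : S | (jonesT ({x} : Set S) ∩ G).Nonempty}) →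
        IsIndecomposable S ∧ ∀ x : S, jonesT ({x} : Set S) = univ) := by
  have h2 : (∀ G : Set S, IsOpen G → IsOpen {x : S | (jonesT ({x} : Set S) ∩ G).Nonempty}) →
      IsIndecomposable S ∧ ∀ x : S, jonesT ({x} : Set S) = univ := fun hL =>
    ⟨indecomposable_of_T (T_eq_univ hL p hp), T_eq_univ hL p hp⟩
  exact ⟨fun hT => (h2 (lsc_of_continuous hT)).1, h2⟩

end Pool.Agent.Results.MP_3a3191_gt.Indecomposable
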